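import Pool.Agent.H63.LP.Ri

/-!
# The strong graded classification conjecture for Leavitt path algebras fails over every field

Let `S` be the strongly connected graph with the vertices `0, …, 5` and the edges `0 → 4`,
`1 → 2`, `2 → 3`, `2 → 4`, `3 → 1`, `4 → 5`, `5 → 0`, `5 → 1`. Over every field `K` (of any
characteristic, algebraically closed or not) the pointed ordered `ℤ[x,x⁻¹]`-module
`K_0^gr(L_K(S))` has an automorphism which is not induced by any graded automorphism of the
Leavitt path algebra `L_K(S)`, as an algebra or as a ring. The starting library has this for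
algebra automorphisms over algebraically closed fields of characteristic zero
(`AutomorphismNotLifted`, with the definitions used here), by means of traces; here traces are
replaced by integral rank functions on the idempotent matrices over finite dimensional algebras
(files `Pool/Agent/H63/LP`), and graded ring isomorphisms are shown to be semilinear.
-/

namespace Pool.Agent.Results.MP_7da47b_al.EveryField

open Pool.Agent.Y83

/-- The isomorphism `f` is of the form `K_0^gr(ψ)` for a degree preserving ring isomorphism `ψ`
from `L_K(G)` to `L_K(H)` (not necessarily linear over `K`). -/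
def IsInducedByRingIso (K : Type) [Field K] {G H : FGraph}
    (f : K0gr (LPA.grading K G) ≃+ K0gr (LPA.grading K H)) : Prop :=
  ∃ (ψ : LPA K G ≃+* LPA K H) (hψ : ∀ n x, x ∈ LPA.grading K G n ↔ ψ x ∈ LPA.grading K H n),
    IsK0Map ψ hψ f

/-- The graph `S` is strongly connected. For every field `K` there is an automorphism `f` of the
pointed ordered `ℤ[x,x⁻¹]`-module `K_0^gr(L_K(S))` which is not of the form `K_0^gr(ψ)` for any
graded ring automorphism `ψ` of `L_K(S)`; so in particular it is not induced by a graded
automorphism of the `K`-algebra `L_K(S)`. -/
theorem result :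
    (∀ v w : graphS.V, Relation.TransGen graphS.Edge v w) ∧
    ∀ (K : Type) [Field K],
      ∃ f : K0gr (LPA.grading K graphS) ≃+ K0gr (LPA.grading K graphS),
        IsPointedK0Iso f ∧ ¬ IsInducedByRingIso K f := by
  refine ⟨graphS_connected, fun K _ => ?_⟩
  obtain ⟨f, h1, h2⟩ := Pool.Agent.H63.LP.exists_not_lift_ring K
  exact ⟨f, h1, fun ⟨ψ, hψ, h⟩ => h2 ψ hψ (AddMonoidHom.ext fun x => (h x).symm)⟩

end Pool.Agent.Results.MP_7da47b_al.EveryField
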