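import Pool.Agent.H63.LP.Ri

/-!
# Two graphs whose Leavitt path algebras over every field are not isomorphic as graded rings
# although their pointed ordered graded Grothendieck groups are isomorphic

`E` has the vertices `0, 1, 2, 3` and the edges `0 → 1`, `1 → 2`, `2 → 3`, `3 → 0`, `3 → 1`; the
graph `F` has one more vertex `4` and the edges `4 → 0`, `4 → 1`. Over every field `K` there is a
pointed ordered isomorphism `K_0^gr(L_K(E)) ≃ K_0^gr(L_K(F))`, and `L_K(E)` is not isomorphic to
`L_K'(F)` as a graded ring, for all fields `K` and `K'`. The starting library has this for graded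
algebra isomorphisms over fields of characteristic zero (`GradedClassificationFails` of
`MP_032b89_al`), by means of traces; here traces are replaced by integral rank functions on the
idempotent matrices over finite dimensional algebras (files `Pool/Agent/H63/LP`), and graded ring
isomorphisms are shown to be semilinear.
-/

namespace Pool.Agent.Results.MP_7da47b_al.NotIsomorphic

open Pool.Agent.Y83

/-- Isomorphism of Leavitt path algebras as graded rings: a ring isomorphism (not necessarily
linear) from `L_K(G)` to `L_K'(H)` which preserves degrees. -/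
def GradedRingIso (K K' : Type) [Field K] [Field K'] (G H : FGraph) : Prop :=
  ∃ ψ : LPA K G ≃+* LPA K' H, ∀ (n : ℤ) (x : LPA K G), x ∈ LPA.gr K G n ↔ ψ x ∈ LPA.gr K' H n

/-- For every field `K` there is a pointed ordered isomorphism of `ℤ[x,x⁻¹]`-modules from
`K_0^gr(L_K(E))` to `K_0^gr(L_K(F))`; and for all fields `K` and `K'` there is no ring
isomorphism from `L_K(E)` to `L_K'(F)` which preserves the degrees. -/
theorem result :
    (∀ (K : Type) [Field K], PointedK0Iso (LPA.grading K graphE) (LPA.grading K graphF)) ∧
    ∀ (K K' : Type) [Field K] [Field K'], ¬ GradedRingIso K K' graphE graphF :=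
  ⟨fun K _ => Pool.Agent.H63.LP.pointedK0Iso' K, fun K K' _ _ ⟨ψ, hψ⟩ =>
    Pool.Agent.H63.LP.not_gradedRingIso K K' ψ hψ⟩

end Pool.Agent.Results.MP_7da47b_al.NotIsomorphic
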